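import Pool.Agent.H25.TotalBip

set_option autoImplicit false

namespace Pool.Agent.Results.MP_db9399_co.Bipartite

open Pool.Agent.H25.TotalDefs

/-- The extension conjecture holds whenever `G` minus the edges of `H` is bipartite
(in particular for every bipartite `G`). -/
theorem result (V : Type) [Fintype V] [DecidableEq V] (G : SimpleGraph V) [DecidableRel G.Adj]
    (H : G.Subgraph) (hH : Dist3Matching G H)
    (hG : (G.deleteEdges H.edgeSet).IsBipartite)
    (pv : V → Fin (G.maxDegree + 2)) (pe : Sym2 V → Fin (G.maxDegree + 2))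
    (hp : IsTotal H.spanningCoe pv pe) :
    ∃ (cv : V → Fin (G.maxDegree + 2)) (ce : Sym2 V → Fin (G.maxDegree + 2)),
      IsTotal G cv ce ∧ (∀ v ∈ H.verts, cv v = pv v) ∧ ∀ e ∈ H.edgeSet, ce e = pe e :=
  Pool.Agent.H25.TotalBip.main G (by simp) H hG hH pv pe hp

end Pool.Agent.Results.MP_db9399_co.Bipartite
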